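import Mathlib

/-! MP_019b27_al: there is a modular lattice `L` such that no complete lattice in the
quasivariety generated by `L` contains a copy of `L`. -/

namespace Pool.Agent.Results.MP_019b27_al.NoEmbedding

universe u v

/-- Lattice terms in countably many variables. -/
inductive LTerm : Type
  | var (n : ℕ) : LTerm
  | sup (s t : LTerm) : LTerm
  | inf (s t : LTerm) : LTerm

/-- Evaluation of a lattice term. -/
def LTerm.eval {L : Type u} [Lattice L] (x : ℕ → L) : LTerm → L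
  | .var n => x n
  | .sup s t => s.eval x ⊔ t.eval x
  | .inf s t => s.eval x ⊓ t.eval x

/-- A quasi-identity: finitely many hypotheses `s_i = t_i` and a conclusion `s = t`. -/
structure QuasiIdentity : Type where
  /-- the hypotheses `s_i = t_i` -/
  hyps : List (LTerm × LTerm)
  /-- left side of the conclusion -/
  lhs : LTerm
  /-- right side of the conclusion -/
  rhs : LTerm

/-- The quasi-identity `q` holds in `L`. -/
def Holds (L : Type u) [Lattice L] (q : QuasiIdentity) : Prop :=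
  ∀ x : ℕ → L, (∀ h ∈ q.hyps, h.1.eval x = h.2.eval x) → q.lhs.eval x = q.rhs.eval x

/-- `K` belongs to the quasivariety `Q(L)` generated by `L`. -/
def InQuasivariety (L : Type u) [Lattice L] (K : Type v) [Lattice K] : Prop :=
  ∀ q : QuasiIdentity, Holds L q → Holds K q

/-- `K` contains a copy of `L`. -/
def ContainsCopy (L : Type u) [Lattice L] (K : Type v) [Lattice K] : Prop :=
  ∃ f : LatticeHom L K, Function.Injective f

section model

/-- the vector space of finitely supported rational sequences -/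
abbrev V : Type := ℕ →₀ ℚ

/-- sequences supported on `[0, n)` -/
def Vn (n : ℕ) : Submodule ℚ V := Finsupp.supported ℚ ℚ {i | i < n}

/-- sequences supported on `[n, ∞)` -/
def Tn (n : ℕ) : Submodule ℚ V := Finsupp.supported ℚ ℚ {i | n ≤ i}

theorem Vn_mono {m n : ℕ} (h : m ≤ n) : Vn m ≤ Vn n :=
  Finsupp.supported_mono fun _ hi => lt_of_lt_of_le hi h

theorem Tn_anti {m n : ℕ} (h : m ≤ n) : Tn n ≤ Tn m :=
  Finsupp.supported_mono fun _ hi => le_trans h hi

theorem Vn_inf_Tn (n : ℕ) : Vn n ⊓ Tn n = ⊥ := by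
  have := Finsupp.disjoint_supported_supported (R := ℚ) (M := ℚ)
    (s := {i : ℕ | i < n}) (t := {i : ℕ | n ≤ i}) (by
      rw [Set.disjoint_left]
      intro i h1 h2
      exact absurd (show i < n from h1) (not_lt_of_ge h2))
  exact this.eq_bot

theorem Vn_sup_Tn (n : ℕ) : Vn n ⊔ Tn n = ⊤ := by
  unfold Vn Tn
  rw [← Finsupp.supported_union, ← Finsupp.supported_univ]
  congr 1
  ext i
  simp [lt_or_ge]

instance (n : ℕ) : FiniteDimensional ℚ (Vn n) := by
  unfold Vn
  have : Finite ({i | i < n} : Set ℕ) := (Set.finite_lt_nat n).to_subtype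
  exact Module.Finite.equiv (Finsupp.supportedEquivFinsupp (M := ℚ) (R := ℚ) {i | i < n}).symm

/-- the lattice of subspaces contained in some `Vn n` or containing some `Tn n` -/
def FC : Sublattice (Submodule ℚ V) where
  carrier := {S | ∃ n, S ≤ Vn n ∨ Tn n ≤ S}
  supClosed' := by
    rintro a ⟨n, ha⟩ b ⟨m, hb⟩
    rcases ha with ha | ha
    · rcases hb with hb | hb
      · exact ⟨max n m, Or.inl (sup_le (ha.trans (Vn_mono (le_max_left _ _)))
          (hb.trans (Vn_mono (le_max_right _ _))))⟩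
      · exact ⟨m, Or.inr (hb.trans le_sup_right)⟩
    · exact ⟨n, Or.inr (ha.trans le_sup_left)⟩
  infClosed' := by
    rintro a ⟨n, ha⟩ b ⟨m, hb⟩
    rcases ha with ha | ha
    · exact ⟨n, Or.inl (inf_le_left.trans ha)⟩
    · rcases hb with hb | hb
      · exact ⟨m, Or.inl (inf_le_right.trans hb)⟩
      · exact ⟨max n m, Or.inr (le_inf ((Tn_anti (le_max_left _ _)).trans ha)
          ((Tn_anti (le_max_right _ _)).trans hb))⟩

theorem eventually_type (a : FC) : ∃ n0, ∀ n, n0 ≤ n → (a.1 ≤ Vn n ∨ Tn n ≤ a.1) := by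
  obtain ⟨n0, h⟩ := a.2
  refine ⟨n0, fun n hn => ?_⟩
  rcases h with h | h
  · exact Or.inl (h.trans (Vn_mono hn))
  · exact Or.inr ((Tn_anti hn).trans h)

theorem trace_sup {a b : Submodule ℚ V} {n : ℕ} (ha : a ≤ Vn n ∨ Tn n ≤ a)
    (hb : b ≤ Vn n ∨ Tn n ≤ b) : (a ⊔ b) ⊓ Vn n = (a ⊓ Vn n) ⊔ (b ⊓ Vn n) := by
  rcases ha with ha | ha
  · rw [sup_inf_assoc_of_le b ha, inf_eq_left.2 ha]
  · rcases hb with hb | hb
    · rw [sup_comm a b, sup_inf_assoc_of_le a hb, inf_eq_left.2 hb, sup_comm]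
    · have h1 : a = (a ⊓ Vn n) ⊔ Tn n := by
        rw [sup_comm, inf_comm, ← sup_inf_assoc_of_le (Vn n) ha, sup_comm (Tn n), Vn_sup_Tn,
          top_inf_eq]
      have h2 : b = (b ⊓ Vn n) ⊔ Tn n := by
        rw [sup_comm, inf_comm, ← sup_inf_assoc_of_le (Vn n) hb, sup_comm (Tn n), Vn_sup_Tn,
          top_inf_eq]
      have h3 : a ⊔ b = ((a ⊓ Vn n) ⊔ (b ⊓ Vn n)) ⊔ Tn n := by
        conv_lhs => rw [h1, h2]
        rw [← sup_sup_distrib_right]
      rw [h3, sup_inf_assoc_of_le (Tn n) (sup_le inf_le_right inf_le_right), inf_comm (Tn n),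
        Vn_inf_Tn, sup_bot_eq]

theorem finrank_trace {a b c : Submodule ℚ V} {n : ℕ} (ha : a ≤ Vn n ∨ Tn n ≤ a)
    (hb : b ≤ Vn n ∨ Tn n ≤ b) (hc : c ≤ Vn n ∨ Tn n ≤ c) (h1 : a ⊔ c = b ⊔ c)
    (h2 : a ⊓ c = b ⊓ c) :
    Module.finrank ℚ (a ⊓ Vn n : Submodule ℚ V) = Module.finrank ℚ (b ⊓ Vn n : Submodule ℚ V) := by
  have : ∀ d : Submodule ℚ V, FiniteDimensional ℚ (d ⊓ Vn n : Submodule ℚ V) := fun d =>
    Submodule.finiteDimensional_of_le inf_le_right
  have e1 := Submodule.finrank_sup_add_finrank_inf_eq (a ⊓ Vn n) (c ⊓ Vn n)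
  have e2 := Submodule.finrank_sup_add_finrank_inf_eq (b ⊓ Vn n) (c ⊓ Vn n)
  have e3 : (a ⊓ Vn n) ⊔ (c ⊓ Vn n) = (b ⊓ Vn n) ⊔ (c ⊓ Vn n) := by
    rw [← trace_sup ha hc, ← trace_sup hb hc, h1]
  have e4 : (a ⊓ Vn n) ⊓ (c ⊓ Vn n) = (b ⊓ Vn n) ⊓ (c ⊓ Vn n) := by
    rw [← inf_inf_distrib_right, ← inf_inf_distrib_right, h2]
  rw [e3, e4] at e1
  omega

theorem qi_in_FC (i j u w z : FC) (hij : i ≤ j) (h1 : i ⊔ z = u ⊔ z) (h2 : i ⊓ z = u ⊓ z)
    (h3 : j ⊔ w = u ⊔ w) (h4 : j ⊓ w = u ⊓ w) : i = j := by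
  obtain ⟨ni, hi⟩ := eventually_type i
  obtain ⟨nj, hj⟩ := eventually_type j
  obtain ⟨nu, hu⟩ := eventually_type u
  obtain ⟨nw, hw⟩ := eventually_type w
  obtain ⟨nz, hz⟩ := eventually_type z
  have h1' : i.1 ⊔ z.1 = u.1 ⊔ z.1 := congrArg Subtype.val h1
  have h2' : i.1 ⊓ z.1 = u.1 ⊓ z.1 := congrArg Subtype.val h2
  have h3' : j.1 ⊔ w.1 = u.1 ⊔ w.1 := congrArg Subtype.val h3
  have h4' : j.1 ⊓ w.1 = u.1 ⊓ w.1 := congrArg Subtype.val h4
  have hij' : i.1 ≤ j.1 := hij
  have key : ∀ n, ni + nj + nu + nw + nz ≤ n → i.1 ⊓ Vn n = j.1 ⊓ Vn n := by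
    intro n hn
    have f1 := finrank_trace (hi n (by omega)) (hu n (by omega)) (hz n (by omega)) h1' h2'
    have f2 := finrank_trace (hj n (by omega)) (hu n (by omega)) (hw n (by omega)) h3' h4'
    have : FiniteDimensional ℚ (j.1 ⊓ Vn n : Submodule ℚ V) :=
      Submodule.finiteDimensional_of_le inf_le_right
    exact Submodule.eq_of_le_of_finrank_eq (inf_le_inf_right _ hij') (f1.trans f2.symm)
  apply Subtype.ext
  apply le_antisymm hij'
  intro x hx
  -- choose `n` so that `x ∈ Vn n`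
  obtain ⟨b, hb⟩ : ∃ b : ℕ, ∀ k ∈ x.support, k ≤ b := ⟨x.support.sup id, fun k hk =>
    Finset.le_sup (f := id) hk⟩
  have hxV : x ∈ Vn (ni + nj + nu + nw + nz + b + 1) := by
    unfold Vn
    rw [Finsupp.mem_supported]
    intro k hk
    have := hb k hk
    change k < _
    omega
  have : x ∈ j.1 ⊓ Vn (ni + nj + nu + nw + nz + b + 1) := ⟨hx, hxV⟩
  rw [← key _ (by omega)] at this
  exact this.1

instance : IsModularLattice FC where
  sup_inf_le_assoc_of_le := by
    intro x y z hxz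
    change (x.1 ⊔ y.1) ⊓ z.1 ≤ x.1 ⊔ y.1 ⊓ z.1
    exact IsModularLattice.sup_inf_le_assoc_of_le y.1 hxz

/-- `span e_i` -/
noncomputable def e (i : ℕ) : FC := ⟨Submodule.span ℚ {Finsupp.single i 1}, i + 1, Or.inl (by
  rw [Submodule.span_le, Set.singleton_subset_iff]
  exact Finsupp.single_mem_supported ℚ 1 (Nat.lt_succ_self i))⟩

/-- `span (e_i + e_j)` -/
noncomputable def d (i j : ℕ) : FC := ⟨Submodule.span ℚ {Finsupp.single i 1 + Finsupp.single j 1},
  i + j + 1, Or.inl (by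
  rw [Submodule.span_le, Set.singleton_subset_iff]
  exact Submodule.add_mem _ (Finsupp.single_mem_supported ℚ 1 (by
    change i < i + j + 1
    omega)) (Finsupp.single_mem_supported ℚ 1 (by
    change j < i + j + 1
    omega)))⟩

/-- `{v | v_j = 0}` -/
noncomputable def h (j : ℕ) : FC := ⟨LinearMap.ker (Finsupp.lapply j : V →ₗ[ℚ] ℚ), j + 1, Or.inr (by
  intro x hx
  unfold Tn at hx
  rw [Finsupp.mem_supported'] at hx
  rw [LinearMap.mem_ker, Finsupp.lapply_apply]
  exact hx j (by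
    change ¬ (j + 1 ≤ j)
    omega))⟩

/-- `{v | v_i = v_j}` -/
noncomputable def g (i j : ℕ) : FC := ⟨LinearMap.ker (Finsupp.lapply i - Finsupp.lapply j : V →ₗ[ℚ] ℚ),
  i + j + 1, Or.inr (by
  intro x hx
  unfold Tn at hx
  rw [Finsupp.mem_supported'] at hx
  rw [LinearMap.mem_ker, LinearMap.sub_apply, Finsupp.lapply_apply, Finsupp.lapply_apply,
    hx i (by change ¬ (i + j + 1 ≤ i); omega), hx j (by change ¬ (i + j + 1 ≤ j); omega),
    sub_zero])⟩

theorem mem_h (j : ℕ) (x : V) : x ∈ (h j).1 ↔ x j = 0 := by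
  change x ∈ LinearMap.ker _ ↔ _
  rw [LinearMap.mem_ker, Finsupp.lapply_apply]

theorem mem_g (i j : ℕ) (x : V) : x ∈ (g i j).1 ↔ x i = x j := by
  change x ∈ LinearMap.ker _ ↔ _
  rw [LinearMap.mem_ker, LinearMap.sub_apply, Finsupp.lapply_apply, Finsupp.lapply_apply,
    sub_eq_zero]

theorem e_le_h {i j : ℕ} (hij : i ≠ j) : e i ≤ h j := by
  change Submodule.span ℚ {Finsupp.single i 1} ≤ (h j).1
  rw [Submodule.span_le, Set.singleton_subset_iff, SetLike.mem_coe, mem_h]
  exact Finsupp.single_eq_of_ne hij.symm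

theorem not_e_le_h (i : ℕ) : ¬ e i ≤ h i := by
  intro hle
  have : (Finsupp.single i 1 : V) ∈ (h i).1 :=
    (show (e i).1 ≤ (h i).1 from hle) (Submodule.mem_span_singleton_self _)
  rw [mem_h, Finsupp.single_eq_same] at this
  exact one_ne_zero this

theorem d_le_h {i i' j : ℕ} (h1 : i ≠ j) (h2 : i' ≠ j) : d i i' ≤ h j := by
  change Submodule.span ℚ {Finsupp.single i 1 + Finsupp.single i' 1} ≤ (h j).1
  rw [Submodule.span_le, Set.singleton_subset_iff, SetLike.mem_coe, mem_h, Finsupp.add_apply,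
    Finsupp.single_eq_of_ne h1.symm, Finsupp.single_eq_of_ne h2.symm, add_zero]

theorem d_le_g_self {i j : ℕ} (h1 : i ≠ j) : d i j ≤ g i j := by
  change Submodule.span ℚ {Finsupp.single i 1 + Finsupp.single j 1} ≤ (g i j).1
  rw [Submodule.span_le, Set.singleton_subset_iff, SetLike.mem_coe, mem_g, Finsupp.add_apply,
    Finsupp.add_apply, Finsupp.single_eq_same, Finsupp.single_eq_same,
    Finsupp.single_eq_of_ne h1, Finsupp.single_eq_of_ne h1.symm, add_zero, zero_add]

theorem h_inf_h_le_g (i j : ℕ) : h i ⊓ h j ≤ g i j := by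
  intro x hx
  have h1 : x ∈ (h i).1 := hx.1
  have h2 : x ∈ (h j).1 := hx.2
  rw [mem_h] at h1 h2
  change x ∈ (g i j).1
  rw [mem_g, h1, h2]

theorem g_inf_h_le_left (i j : ℕ) : h j ⊓ g i j ≤ h i := by
  intro x hx
  have h1 : x ∈ (h j).1 := hx.1
  have h2 : x ∈ (g i j).1 := hx.2
  rw [mem_h] at h1
  rw [mem_g] at h2
  change x ∈ (h i).1
  rw [mem_h, h2, h1]

theorem g_inf_h_le_right (i j : ℕ) : h i ⊓ g i j ≤ h j := by
  intro x hx
  have h1 : x ∈ (h i).1 := hx.1
  have h2 : x ∈ (g i j).1 := hx.2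
  rw [mem_h] at h1
  rw [mem_g] at h2
  change x ∈ (h j).1
  rw [mem_h, ← h2, h1]

theorem e_le_left (i j : ℕ) : e i ≤ e j ⊔ d i j := by
  change Submodule.span ℚ {Finsupp.single i 1} ≤ (e j).1 ⊔ (d i j).1
  rw [Submodule.span_le, Set.singleton_subset_iff]
  have : (Finsupp.single i 1 : V) = -Finsupp.single j 1 +
      (Finsupp.single i 1 + Finsupp.single j 1) := by abel
  rw [this]
  exact Submodule.add_mem_sup (Submodule.neg_mem _ (Submodule.mem_span_singleton_self _))
    (Submodule.mem_span_singleton_self _)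

theorem e_le_right (i j : ℕ) : e j ≤ e i ⊔ d i j := by
  change Submodule.span ℚ {Finsupp.single j 1} ≤ (e i).1 ⊔ (d i j).1
  rw [Submodule.span_le, Set.singleton_subset_iff]
  have : (Finsupp.single j 1 : V) = -Finsupp.single i 1 +
      (Finsupp.single i 1 + Finsupp.single j 1) := by abel
  rw [this]
  exact Submodule.add_mem_sup (Submodule.neg_mem _ (Submodule.mem_span_singleton_self _))
    (Submodule.mem_span_singleton_self _)

end model

section nocopy

variable {K : Type u} [CompleteLattice K] (f : LatticeHom FC K)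

/-- bottom-like element -/
noncomputable def O : K := ⨅ j, f (h j)

/-- `O ∨ ⋁ e (α k)` -/
noncomputable def A (α : ℕ → ℕ) : K := O f ⊔ ⨆ k, f (e (α k))

/-- `O ∨ ⋁ span (e (α k) + e (β k))` -/
noncomputable def D (α β : ℕ → ℕ) : K := O f ⊔ ⨆ k, f (d (α k) (β k))

theorem A_le_h (α : ℕ → ℕ) (j : ℕ) (hj : ∀ k, α k ≠ j) : A f α ≤ f (h j) := by
  refine sup_le (iInf_le _ _) (iSup_le fun k => ?_)
  exact OrderHomClass.mono f (e_le_h (hj k))

theorem D_le_g (α β : ℕ → ℕ) (hα : Function.Injective α) (hβ : Function.Injective β)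
    (hαβ : ∀ k l, α k ≠ β l) (k : ℕ) : D f α β ≤ f (g (α k) (β k)) := by
  refine sup_le ?_ (iSup_le fun l => ?_)
  · calc O f ≤ f (h (α k)) ⊓ f (h (β k)) := le_inf (iInf_le _ _) (iInf_le _ _)
      _ = f (h (α k) ⊓ h (β k)) := (map_inf f _ _).symm
      _ ≤ f (g (α k) (β k)) := OrderHomClass.mono f (h_inf_h_le_g _ _)
  · apply OrderHomClass.mono f
    by_cases hl : l = k
    · subst hl
      exact d_le_g_self (hαβ l l)
    · refine le_trans (le_inf ?_ ?_) (h_inf_h_le_g _ _)
      · exact d_le_h (fun h => hl (hα h)) (fun h => hαβ k l h.symm)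
      · exact d_le_h (hαβ l k) (fun h => hl (hβ h))

theorem A_inf_D_left (α β : ℕ → ℕ) (hα : Function.Injective α) (hβ : Function.Injective β)
    (hαβ : ∀ k l, α k ≠ β l) : A f α ⊓ D f α β = O f := by
  apply le_antisymm
  · refine le_iInf fun j => ?_
    by_cases hj : ∃ k, α k = j
    · obtain ⟨k, rfl⟩ := hj
      calc A f α ⊓ D f α β ≤ f (h (β k)) ⊓ f (g (α k) (β k)) :=
            inf_le_inf (A_le_h f α _ (fun l => hαβ l k)) (D_le_g f α β hα hβ hαβ k)
        _ = f (h (β k) ⊓ g (α k) (β k)) := (map_inf f _ _).symm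
        _ ≤ f (h (α k)) := OrderHomClass.mono f (g_inf_h_le_left _ _)
    · push Not at hj
      exact inf_le_left.trans (A_le_h f α j hj)
  · exact le_inf le_sup_left le_sup_left

theorem A_inf_D_right (α β : ℕ → ℕ) (hα : Function.Injective α) (hβ : Function.Injective β)
    (hαβ : ∀ k l, α k ≠ β l) : A f β ⊓ D f α β = O f := by
  apply le_antisymm
  · refine le_iInf fun j => ?_
    by_cases hj : ∃ k, β k = j
    · obtain ⟨k, rfl⟩ := hj
      calc A f β ⊓ D f α β ≤ f (h (α k)) ⊓ f (g (α k) (β k)) :=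
            inf_le_inf (A_le_h f β _ (fun l => (hαβ k l).symm)) (D_le_g f α β hα hβ hαβ k)
        _ = f (h (α k) ⊓ g (α k) (β k)) := (map_inf f _ _).symm
        _ ≤ f (h (β k)) := OrderHomClass.mono f (g_inf_h_le_right _ _)
    · push Not at hj
      exact inf_le_left.trans (A_le_h f β j hj)
  · exact le_inf le_sup_left le_sup_left

theorem A_sup_D (α β : ℕ → ℕ) : A f α ⊔ D f α β = A f β ⊔ D f α β := by
  apply le_antisymm
  · refine sup_le (sup_le (le_sup_left.trans le_sup_left) (iSup_le fun k => ?_)) le_sup_right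
    calc f (e (α k)) ≤ f (e (β k) ⊔ d (α k) (β k)) := OrderHomClass.mono f (e_le_left _ _)
      _ = f (e (β k)) ⊔ f (d (α k) (β k)) := map_sup f _ _
      _ ≤ A f β ⊔ D f α β := sup_le_sup
          (le_sup_of_le_right (le_iSup (fun k => f (e (β k))) k))
          (le_sup_of_le_right (le_iSup (fun k => f (d (α k) (β k))) k))
  · refine sup_le (sup_le (le_sup_left.trans le_sup_left) (iSup_le fun k => ?_)) le_sup_right
    calc f (e (β k)) ≤ f (e (α k) ⊔ d (α k) (β k)) := OrderHomClass.mono f (e_le_right _ _)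
      _ = f (e (α k)) ⊔ f (d (α k) (β k)) := map_sup f _ _
      _ ≤ A f α ⊔ D f α β := sup_le_sup
          (le_sup_of_le_right (le_iSup (fun k => f (e (α k))) k))
          (le_sup_of_le_right (le_iSup (fun k => f (d (α k) (β k))) k))

/-- the quasi-identity: variables `0 = i, 1 = j, 2 = u, 3 = w, 4 = z` -/
def theQI : QuasiIdentity where
  hyps := [(.sup (.var 0) (.var 1), .var 1),
    (.sup (.var 0) (.var 4), .sup (.var 2) (.var 4)),
    (.inf (.var 0) (.var 4), .inf (.var 2) (.var 4)),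
    (.sup (.var 1) (.var 3), .sup (.var 2) (.var 3)),
    (.inf (.var 1) (.var 3), .inf (.var 2) (.var 3))]
  lhs := .var 0
  rhs := .var 1

theorem holds_iff (M : Type u) [Lattice M] : Holds M theQI ↔
    ∀ i j u w z : M, i ≤ j → i ⊔ z = u ⊔ z → i ⊓ z = u ⊓ z → j ⊔ w = u ⊔ w →
      j ⊓ w = u ⊓ w → i = j := by
  constructor
  · intro hM i j u w z hij h1 h2 h3 h4
    have := hM (fun n => if n = 0 then i else if n = 1 then j else if n = 2 then u else
      if n = 3 then w else z)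
    simp only [theQI, LTerm.eval, List.mem_cons, List.not_mem_nil, or_false, forall_eq_or_imp,
      forall_eq] at this
    exact this ⟨sup_eq_right.2 hij, h1, h2, h3, h4⟩
  · intro hM x hx
    simp only [theQI, LTerm.eval, List.mem_cons, List.not_mem_nil, or_false, forall_eq_or_imp,
      forall_eq] at hx ⊢
    obtain ⟨h0, h1, h2, h3, h4⟩ := hx
    exact hM _ _ _ _ _ (sup_eq_right.1 h0) h1 h2 h3 h4

end nocopy

/-- There is a modular lattice `L` such that no complete lattice belonging to the quasivariety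
generated by `L` contains a copy of `L`. -/
theorem result : ∃ (L : Type) (_ : Lattice L), IsModularLattice L ∧
    ∀ (K : Type u) [CompleteLattice K], InQuasivariety L K → ¬ ContainsCopy L K := by
  refine ⟨FC, inferInstance, inferInstance, ?_⟩
  rintro K _ hK ⟨f, hf⟩
  have hQ : Holds K theQI := hK theQI ((holds_iff FC).2 qi_in_FC)
  rw [holds_iff] at hQ
  have hle : ∀ x y : FC, f x ≤ f y → x ≤ y := by
    intro x y hxy
    have h1 : f (x ⊔ y) = f y := by
      rw [map_sup]
      exact sup_eq_right.2 hxy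
    exact sup_eq_right.1 (hf h1)
  have inj4 : Function.Injective (fun k : ℕ => 4 * k) := fun a b hab => by
    simp only at hab
    omega
  have inj2 : Function.Injective (fun k : ℕ => 2 * k) := fun a b hab => by
    simp only at hab
    omega
  have injo : Function.Injective (fun k : ℕ => 2 * k + 1) := fun a b hab => by
    simp only at hab
    omega
  have ne4 : ∀ k l : ℕ, (fun k : ℕ => 4 * k) k ≠ (fun k : ℕ => 2 * k + 1) l := by
    intro k l hkl
    simp only at hkl
    omega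
  have ne2 : ∀ k l : ℕ, (fun k : ℕ => 2 * k) k ≠ (fun k : ℕ => 2 * k + 1) l := by
    intro k l hkl
    simp only at hkl
    omega
  have hIJ : A f (fun k => 4 * k) ≤ A f (fun k => 2 * k) := by
    refine sup_le le_sup_left (iSup_le fun k => ?_)
    have h1 : f (e (2 * (2 * k))) ≤ A f (fun k => 2 * k) :=
      le_sup_of_le_right (le_iSup (fun k => f (e (2 * k))) (2 * k))
    have h2 : 2 * (2 * k) = 4 * k := by ring
    rw [h2] at h1
    exact h1
  have heq := hQ (A f (fun k => 4 * k)) (A f (fun k => 2 * k)) (A f (fun k => 2 * k + 1))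
    (D f (fun k => 2 * k) (fun k => 2 * k + 1)) (D f (fun k => 4 * k) (fun k => 2 * k + 1))
    hIJ (A_sup_D f _ _)
    ((A_inf_D_left f _ _ inj4 injo ne4).trans (A_inf_D_right f _ _ inj4 injo ne4).symm)
    (A_sup_D f _ _)
    ((A_inf_D_left f _ _ inj2 injo ne2).trans (A_inf_D_right f _ _ inj2 injo ne2).symm)
  have h1 : f (e (2 * 1)) ≤ A f (fun k => 2 * k) :=
    le_sup_of_le_right (le_iSup (fun k => f (e (2 * k))) 1)
  rw [mul_one] at h1
  have h2 : A f (fun k => 4 * k) ≤ f (h 2) := by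
    apply A_le_h
    intro k hk
    omega
  exact not_e_le_h 2 (hle _ _ ((h1.trans (le_of_eq heq.symm)).trans h2))

end Pool.Agent.Results.MP_019b27_al.NoEmbedding
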